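import Mathlib
import Pool.Agent.Lib.MP_bf30c2_ag.Defs
import Pool.Agent.Lib.MP_bf30c2_ag.Main

namespace Pool.Agent.Results.MP_bf30c2_ag.NoExtraction

open Pool.Agent.Lib.MP_bf30c2_ag

/-- An lc pair on an affine space with positive minimal log discrepancy at the origin such that
no divisor computing it is the exceptional divisor of a divisorial contraction. -/
theorem result :
    ∃ (σ : Type) (_ : Fintype σ) (_ : DecidableEq σ) (ι : Type) (_ : Fintype ι) (c : ι → ℝ)
      (h : ι → CoordRing σ) (μ : ℝ),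
      2 ≤ Fintype.card σ ∧ (∀ i, 0 ≤ c i) ∧ (∀ i, h i ≠ 0) ∧
      (∀ v, IsPrimeDivisor v → 0 ≤ logDiscrepancy c h v) ∧
      (∀ v, IsPrimeDivisor v → 0 < logDiscrepancy 0 h v) ∧
      0 < μ ∧
      IsLeast (logDiscrepancy c h '' {v | IsPrimeDivisor v ∧ CentredAtOrigin v}) μ ∧
      ∀ v, IsPrimeDivisor v → CentredAtOrigin v → logDiscrepancy c h v = μ →
        ¬ HasDivisorialContraction v := by
  obtain ⟨M, hM⟩ : ∃ M : ℕ, 3800 ≤ M := ⟨_, le_rfl⟩
  have hc : ∀ t, 3800 ≤ (Finset.univ.filter fun i : Fin 6 × Fin M => i.1 = t).card := fun t => by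
    refine hM.trans (le_of_eq ?_)
    rw [show (Finset.univ.filter fun i : Fin 6 × Fin M => i.1 = t) = {t} ×ˢ Finset.univ by
      ext i; simp [Finset.mem_product, -Finset.singleton_product]]
    simp
  have H := fun v (hv : IsPrimeDivisor v) (hv' : CentredAtOrigin v) =>
    lower hc hv.good ((centred_iff hv.alg).mp hv')
  have hE : IsPrimeDivisor (vE (Fin 6 × Fin M)) := mono_prime _ _
  have hE' := (centred_iff hE.alg).mpr vE_centre
  refine ⟨Fin 3 ⊕ Fin 6 × Fin M, inferInstance, inferInstance, Fin 6 × Fin M, inferInstance,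
    cc Prod.fst, hA Prod.fst, 50, by simp; omega, fun i => by unfold cc; positivity, hA_ne _,
    fun v hv => LD_nonneg hv.good, fun v hv => ?_, by norm_num,
    ⟨⟨_, ⟨hE, hE'⟩, le_antisymm (vE_le _) (H _ hE hE').1⟩, ?_⟩, fun v hv hv' h => ?_⟩
  · have := hv.good.nonneg
    simp only [logDiscrepancy, Pi.zero_apply, zero_mul, Finset.sum_const_zero, sub_zero]
    positivity
  · rintro _ ⟨v, ⟨hv, hv'⟩, rfl⟩
    exact (H v hv hv').1
  · obtain ⟨hx, b, hb⟩ := (H v hv hv').2 h
    exact no_contraction hv.alg hx hb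

end Pool.Agent.Results.MP_bf30c2_ag.NoExtraction
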